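import Pool.Agent.H560.E2.Stm
import Pool.Agent.H523.RH2

/-!
# Project E2 (helper560), task MAIN: the sieve weights along the primes (helper161)
-/

set_option autoImplicit false
set_option linter.unusedSectionVars false
set_option linter.unusedVariables false

namespace Pool.Agent.H161.E2

open Polynomial Finset
open Pool.Agent.H341R2.Sharp (Mon mem_Mon)
open Pool.Agent.H523.FF (Ir mem_Ir PL mem_PL card_PL two_le_card count_multi)
open Pool.Agent.H523.RH (Phi pnt Phi_prod)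
open Pool.Agent.H694.Typ (Mn Irn PU mem_Irn mem_PU)
open Pool.Agent.H560.E2
open scoped Classical

variable {K : Type} [Field K] [Fintype K] {k : ℕ}

/-- the nonzero residues modulo `P` removed by the sieve -/
noncomputable def RR (α : Fin k → K[X]) (p P : K[X]) : Finset K[X] :=
  (PL K P.natDegree).filter (fun r => r ≠ 0 ∧ ∃ i, P ∣ p * r + α i)

theorem mem_RR {α : Fin k → K[X]} {p P r : K[X]} : r ∈ RR α p P ↔
    r.degree < P.natDegree ∧ r ≠ 0 ∧ ∃ i, P ∣ p * r + α i := by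
  unfold RR
  rw [mem_filter, mem_PL]

theorem small_zero {P r : K[X]} (hP : P ≠ 0) (h : r.degree < P.natDegree) (hd : P ∣ r) : r = 0 := by
  rw [← degree_eq_natDegree hP] at h
  exact eq_zero_of_dvd_of_degree_lt hd h

theorem dvd_sub_mod {P : K[X]} (hP : P.Monic) (f : K[X]) : P ∣ f - f %ₘ P := by
  refine ⟨f /ₘ P, ?_⟩
  have := modByMonic_add_div f P
  linear_combination -this

theorem mod_degree {P : K[X]} (hP : P.Monic) (f : K[X]) : (f %ₘ P).degree < P.natDegree := by
  rw [← degree_eq_natDegree hP.ne_zero]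
  exact degree_modByMonic_lt f hP

theorem card_RR (α : Fin k → K[X]) {p P : K[X]} (hP : P.Monic) (hi : Irreducible P)
    (hp : ¬ P ∣ p) : (RR α p P).card = om α P := by
  unfold om
  have hpr : Prime P := hi.prime
  refine Finset.card_bij (fun r _ => (-(p * r)) % P) ?_ ?_ ?_
  · intro r hr
    obtain ⟨h1, h2, i, h3⟩ := mem_RR.1 hr
    rw [mem_erase, mem_image]
    constructor
    · intro h4
      have h5 : P ∣ p * r := by
        have := EuclideanDomain.mod_eq_zero.1 h4
        rwa [dvd_neg] at this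
      rcases hpr.dvd_or_dvd h5 with h6 | h6
      · exact hp h6
      · exact h2 (small_zero hP.ne_zero h1 h6)
    · refine ⟨i, mem_univ _, ?_⟩
      rw [← modByMonic_eq_mod _ hP, ← modByMonic_eq_mod _ hP]
      refine modByMonic_eq_of_dvd_sub hP ?_
      have e : α i - -(p * r) = p * r + α i := by ring
      rw [e]
      exact h3
  · intro r hr r' hr' h
    obtain ⟨h1, h2, _⟩ := mem_RR.1 hr
    obtain ⟨h1', h2', _⟩ := mem_RR.1 hr'
    have h3 : P ∣ p * (r' - r) := by
      have h4 := EuclideanDomain.mod_eq_sub_mul_div (-(p * r)) P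
      have h5 := EuclideanDomain.mod_eq_sub_mul_div (-(p * r')) P
      have h6 : -(p * r) % P = -(p * r') % P := h
      rw [h4, h5] at h6
      refine ⟨-(p * r) / P - -(p * r') / P, ?_⟩
      linear_combination h6
    rcases hpr.dvd_or_dvd h3 with h6 | h6
    · exact absurd h6 hp
    · have h7 : (r' - r).degree < P.natDegree :=
        lt_of_le_of_lt (degree_sub_le _ _) (max_lt h1' h1)
      have h8 := small_zero hP.ne_zero h7 h6
      exact (sub_eq_zero.1 h8).symm
  · intro c hc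
    rw [mem_erase, mem_image] at hc
    obtain ⟨hc0, i, _, hic⟩ := hc
    obtain ⟨u, v, huv⟩ : IsCoprime p P := ((Irreducible.coprime_iff_not_dvd hi).2 hp).symm
    have h1 := dvd_sub_mod hP (-(u * α i))
    set r := (-(u * α i)) %ₘ P with hr
    have h2 : P ∣ p * r + α i := by
      obtain ⟨w, hw⟩ := h1
      refine ⟨v * α i - p * w, ?_⟩
      linear_combination (-p) * hw - α i * huv
    have h3 : (-(p * r)) % P = c := by
      rw [← hic, ← modByMonic_eq_mod _ hP, ← modByMonic_eq_mod _ hP]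
      refine modByMonic_eq_of_dvd_sub hP ?_
      have e : -(p * r) - α i = -(p * r + α i) := by ring
      rw [e, dvd_neg]
      exact h2
    refine ⟨r, mem_RR.2 ⟨mod_degree hP _, ?_, i, h2⟩, h3⟩
    intro h4
    rw [h4] at h3
    apply hc0
    rw [← h3]
    simp

/-- the count for one set `T` of primes -/
theorem count_T (α : Fin k → K[X]) {p : K[X]} {j m N : ℕ} (hp : p ∈ Irn K j) (hmj : m < j)
    (hmN : m < N) {T : Finset K[X]}
    (hT : ∀ P ∈ T, P.Monic ∧ Irreducible P ∧ P.natDegree ≤ m)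
    (hD : ∑ P ∈ T, P.natDegree ≤ N) :
    |(N : ℝ) * (((Irn K N).filter (fun g => ∀ P ∈ T, ∃ i, P ∣ p * g + α i)).card : ℝ) -
      (Fintype.card K : ℝ) ^ N * ∏ P ∈ T, wd α P| ≤
      (∏ P ∈ T, (om α P : ℝ)) * ((2 * (∑ P ∈ T, P.natDegree : ℕ) + 4 : ℝ) *
        (√(Fintype.card K : ℝ)) ^ N) := by
  obtain ⟨hpm, hpd, hpi⟩ := mem_Irn.1 hp
  have hPp : ∀ P ∈ T, ¬ P ∣ p := by
    intro P hP hdvd
    obtain ⟨hm, hi, hd⟩ := hT P hP
    have h1 : Associated P p := hi.associated_of_dvd hpi hdvd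
    have h2 := eq_of_monic_of_associated hm hpm h1
    rw [← h2] at hpd
    omega
  have hDm : (∏ P ∈ T, P).Monic := monic_prod_of_monic _ _ (fun P hP => (hT P hP).1)
  have hDd : (∏ P ∈ T, P).natDegree = ∑ P ∈ T, P.natDegree :=
    natDegree_prod_of_monic _ _ (fun P hP => (hT P hP).1)
  have hPD : ∀ P ∈ T, P ∣ ∏ P ∈ T, P := fun P hP => Finset.dvd_prod_of_mem _ hP
  set D : K[X] := ∏ P ∈ T, P with hDdef
  set S : Finset K[X] := (Irn K N).filter (fun g => ∀ P ∈ T, ∃ i, P ∣ p * g + α i) with hS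
  set Rs : Finset K[X] := (PL K (∑ P ∈ T, P.natDegree)).filter
    (fun x => ∀ P ∈ T, ∃ r ∈ RR α p P, P ∣ x - r) with hRs
  have hRcard : Rs.card = ∏ P ∈ T, om α P := by
    rw [hRs, count_multi (RR α p) T (fun P hP => ⟨(hT P hP).1, (hT P hP).2.1⟩) ?_ _ le_rfl,
      Nat.sub_self, pow_zero, mul_one]
    · exact Finset.prod_congr rfl fun P hP => card_RR α (hT P hP).1 (hT P hP).2.1 (hPp P hP)
    · intro P hP r hr r' hr' hdvd
      have h1 : (r - r').degree < P.natDegree :=
        lt_of_le_of_lt (degree_sub_le _ _) (max_lt (mem_RR.1 hr).1 (mem_RR.1 hr').1)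
      exact sub_eq_zero.1 (small_zero (hT P hP).1.ne_zero h1 hdvd)
  -- the fibres
  have hmaps : ∀ g ∈ S, g %ₘ D ∈ Rs := by
    intro g hg
    rw [hS, mem_filter] at hg
    obtain ⟨hg1, hg2⟩ := hg
    obtain ⟨hgm, hgd, hgi⟩ := mem_Irn.1 hg1
    rw [hRs, mem_filter, mem_PL, ← hDd]
    refine ⟨mod_degree hDm g, fun P hP => ?_⟩
    obtain ⟨hm, hi, hd⟩ := hT P hP
    obtain ⟨i, hPi⟩ := hg2 P hP
    have hPg : P ∣ g - g %ₘ P := dvd_sub_mod hm g
    refine ⟨g %ₘ P, mem_RR.2 ⟨mod_degree hm g, ?_, i, ?_⟩, ?_⟩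
    · intro h0
      rw [h0, sub_zero] at hPg
      have h1 := eq_of_monic_of_associated hm hgm (hi.associated_of_dvd hgi hPg)
      rw [← h1] at hgd
      omega
    · have e : p * (g %ₘ P) + α i = (p * g + α i) - p * (g - g %ₘ P) := by ring
      rw [e]
      exact dvd_sub hPi (hPg.mul_left p)
    · have e : g %ₘ D - g %ₘ P = (g - g %ₘ P) - (g - g %ₘ D) := by ring
      rw [e]
      exact dvd_sub hPg ((hPD P hP).trans (dvd_sub_mod hDm g))
  have hsum : (S.card : ℝ) = ∑ x ∈ Rs, ((S.filter (fun g => g %ₘ D = x)).card : ℝ) := by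
    rw [Finset.card_eq_sum_card_fiberwise hmaps]
    push_cast
    rfl
  -- each fibre
  have hfib : ∀ x ∈ Rs, |(N : ℝ) * ((S.filter (fun g => g %ₘ D = x)).card : ℝ) -
      (Fintype.card K : ℝ) ^ N / Phi D 0| ≤
      (2 * (∑ P ∈ T, P.natDegree : ℕ) + 4 : ℝ) * (√(Fintype.card K : ℝ)) ^ N := by
    intro x hx
    rw [hRs, mem_filter, mem_PL, ← hDd] at hx
    obtain ⟨hxd, hxr⟩ := hx
    set f₀ : K[X] := D * X ^ (N - D.natDegree) + x with hf₀
    have hDN : D.natDegree ≤ N := by rw [hDd]; exact hD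
    have hmm : (D * X ^ (N - D.natDegree)).Monic := hDm.mul (monic_X_pow _)
    have hmd : (D * X ^ (N - D.natDegree)).natDegree = N := by
      rw [hDm.natDegree_mul (monic_X_pow _), natDegree_X_pow]
      omega
    have hxlt : x.degree < (D * X ^ (N - D.natDegree)).degree := by
      rw [degree_eq_natDegree hmm.ne_zero, hmd]
      exact lt_of_lt_of_le hxd (by exact_mod_cast hDN)
    have hf₀M : f₀ ∈ Mon K N := by
      rw [mem_Mon]
      refine ⟨hmm.add_of_left hxlt, ?_⟩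
      rw [hf₀, natDegree_add_eq_left_of_degree_lt hxlt, hmd]
    have hDf : ∀ g : K[X], D ∣ g - f₀ ↔ D ∣ g - x := by
      intro g
      have e : g - x = (g - f₀) + D * X ^ (N - D.natDegree) := by rw [hf₀]; ring
      rw [e]
      exact (dvd_add_left (dvd_mul_right D _)).symm
    have hcop : IsCoprime f₀ D := by
      rw [hDdef, IsCoprime.prod_right_iff]
      intro P hP
      obtain ⟨hm, hi, hd⟩ := hT P hP
      refine ((Irreducible.coprime_iff_not_dvd hi).2 ?_).symm
      intro hdvd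
      obtain ⟨r, hr, hxr'⟩ := hxr P hP
      obtain ⟨hr1, hr2, _⟩ := mem_RR.1 hr
      apply hr2
      refine small_zero hm.ne_zero hr1 ?_
      have e : r = f₀ - D * X ^ (N - D.natDegree) - (x - r) := by rw [hf₀]; ring
      rw [e]
      exact dvd_sub (dvd_sub hdvd ((hPD P hP).mul_right _)) hxr'
    have hset : S.filter (fun g => g %ₘ D = x) = (Ir K N).filter
        (fun P => D ∣ P - f₀ ∧ (P - f₀).degree < ((N - 0 : ℕ) : WithBot ℕ)) := by
      ext g
      rw [mem_filter, hS, mem_filter, mem_filter, mem_Ir, mem_Irn, hDf]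
      constructor
      · rintro ⟨⟨⟨h1, h2, h3⟩, h4⟩, h5⟩
        refine ⟨⟨h1, h3, h2⟩, ?_, ?_⟩
        · rw [← h5]
          exact dvd_sub_mod hDm g
        · have h6 := mem_Mon.1 hf₀M
          have h7 : g.degree = f₀.degree := by
            rw [degree_eq_natDegree h1.ne_zero, degree_eq_natDegree h6.1.ne_zero, h2, h6.2]
          have h8 := degree_sub_lt_left h7 h1.ne_zero (by rw [h1.leadingCoeff, h6.1.leadingCoeff])
          rw [degree_eq_natDegree h1.ne_zero, h2] at h8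
          rw [Nat.sub_zero]
          exact h8
      · rintro ⟨⟨h1, h3, h2⟩, h4, _⟩
        refine ⟨⟨⟨h1, h2, h3⟩, fun P hP => ?_⟩, ?_⟩
        · obtain ⟨r, hr, hxr'⟩ := hxr P hP
          obtain ⟨_, _, i, hi⟩ := mem_RR.1 hr
          refine ⟨i, ?_⟩
          have e : p * g + α i = (p * r + α i) + p * ((g - x) + (x - r)) := by ring
          rw [e]
          exact dvd_add hi ((dvd_add ((hPD P hP).trans h4) hxr').mul_left p)
        · have h5 := modByMonic_eq_of_dvd_sub hDm h4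
          rw [h5]
          rw [← degree_eq_natDegree hDm.ne_zero] at hxd
          exact (modByMonic_eq_self_iff hDm).2 hxd
    have h := pnt hDm 0 N (by omega) (Nat.zero_le _) hf₀M hcop
    rw [← hset, hDd] at h
    refine h.trans (le_of_eq ?_)
    push_cast
    ring
  have hPhi : (Phi D 0 : ℝ) = ∏ P ∈ T, ((Fintype.card K : ℝ) ^ P.natDegree - 1) := by
    rw [hDdef, Phi_prod T (fun P hP => ⟨(hT P hP).1, (hT P hP).2.1⟩) 0, pow_zero, one_mul]
  have hmain : (Fintype.card K : ℝ) ^ N * ∏ P ∈ T, wd α P =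
      ∑ x ∈ Rs, (Fintype.card K : ℝ) ^ N / Phi D 0 := by
    rw [Finset.sum_const, hRcard, hPhi, nsmul_eq_mul]
    unfold wd
    rw [Finset.prod_div_distrib]
    push_cast
    ring
  rw [hmain, hsum, Finset.mul_sum, ← Finset.sum_sub_distrib]
  refine (Finset.abs_sum_le_sum_abs _ _).trans ((Finset.sum_le_sum hfib).trans (le_of_eq ?_))
  rw [Finset.sum_const, hRcard, nsmul_eq_mul]
  push_cast
  ring

theorem om_le (α : Fin k → K[X]) (P : K[X]) : om α P ≤ k := by
  unfold om
  calc _ ≤ (Finset.univ.image (fun i => α i % P)).card := Finset.card_erase_le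
    _ ≤ (Finset.univ : Finset (Fin k)).card := Finset.card_image_le
    _ = k := by simp

theorem card_supp (m B : ℕ) :
    ((PU K m).powerset.filter (fun T => ∑ P ∈ T, P.natDegree ≤ B)).card ≤
      Fintype.card K ^ (B + 1) := by
  rw [← card_PL]
  refine Finset.card_le_card_of_injOn (fun T => ∏ P ∈ T, P) ?_ ?_
  · intro T hT
    rw [Finset.mem_coe, mem_filter, mem_powerset] at hT
    have hm : ∀ P ∈ T, P.Monic := fun P hP => (mem_PU.1 (hT.1 hP)).1
    rw [Finset.mem_coe, mem_PL, degree_eq_natDegree (monic_prod_of_monic _ _ hm).ne_zero,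
      natDegree_prod_of_monic _ _ hm]
    exact_mod_cast Nat.lt_succ_of_le hT.2
  · have key : ∀ T T' : Finset K[X], T ⊆ PU K m → T' ⊆ PU K m →
        ∏ P ∈ T, P = ∏ P ∈ T', P → T ⊆ T' := by
      intro T T' hT hT' h P hP
      have h1 : P ∣ ∏ P ∈ T', P := by
        rw [← h]
        exact Finset.dvd_prod_of_mem _ hP
      obtain ⟨hPm, hPi, _⟩ := mem_PU.1 (hT hP)
      obtain ⟨Q, hQ, hPQ⟩ := (hPi.prime.dvd_finsetProd_iff _).1 h1
      obtain ⟨hQm, hQi, _⟩ := mem_PU.1 (hT' hQ)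
      rw [eq_of_monic_of_associated hPm hQm (hPi.associated_of_dvd hQi hPQ)]
      exact hQ
    intro T hT T' hT' h
    rw [Finset.mem_coe, mem_filter, mem_powerset] at hT hT'
    exact Finset.Subset.antisymm (key T T' hT.1 hT'.1 h) (key T' T hT'.1 hT.1 h.symm)

/-- the numerical estimate -/
theorem numer (q : ℕ) (hq : 2 ≤ q) (k B N : ℕ) (h : ((k : ℝ) + 3) * B + 5 ≤ (N : ℝ) / 4) :
    (q : ℝ) ^ (B + 1) * (((k : ℝ) + 1) ^ B * ((2 * (B : ℝ) + 4) * (√(q : ℝ)) ^ N)) ≤
      (q : ℝ) ^ (3 / 4 * (N : ℝ)) := by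
  have hq1 : (1 : ℝ) ≤ q := by exact_mod_cast (by omega : 1 ≤ q)
  have hq2 : (2 : ℝ) ≤ q := by exact_mod_cast hq
  have hq0 : (0 : ℝ) < q := by linarith
  have hpow : ∀ n : ℕ, ((n : ℝ) + 1) ≤ (q : ℝ) ^ n := by
    intro n
    have h1 : n + 1 ≤ 2 ^ n := Nat.lt_two_pow_self
    have h2 : ((n : ℝ) + 1) ≤ (2 : ℝ) ^ n := by exact_mod_cast h1
    exact h2.trans (pow_le_pow_left₀ (by norm_num) hq2 n)
  have e1 : ((k : ℝ) + 1) ^ B ≤ (q : ℝ) ^ (k * B) := by
    rw [pow_mul]
    exact pow_le_pow_left₀ (by positivity) (hpow k) B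
  have e2 : (2 * (B : ℝ) + 4) ≤ (q : ℝ) ^ (2 * B + 4) := by
    have := hpow (2 * B + 4)
    push_cast at this
    linarith
  have e3 : (√(q : ℝ)) ^ N = (q : ℝ) ^ ((N : ℝ) / 2) := by
    rw [Real.sqrt_eq_rpow, ← Real.rpow_natCast, ← Real.rpow_mul hq0.le]
    congr 1
    ring
  have hs : 0 ≤ (√(q : ℝ)) ^ N := by positivity
  calc (q : ℝ) ^ (B + 1) * (((k : ℝ) + 1) ^ B * ((2 * (B : ℝ) + 4) * (√(q : ℝ)) ^ N))
      ≤ (q : ℝ) ^ (B + 1) * ((q : ℝ) ^ (k * B) * ((q : ℝ) ^ (2 * B + 4) * (√(q : ℝ)) ^ N)) := by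
        gcongr
    _ = (q : ℝ) ^ ((k + 3) * B + 5) * (q : ℝ) ^ ((N : ℝ) / 2) := by
        rw [e3, ← mul_assoc, ← mul_assoc, ← pow_add, ← pow_add]
        congr 2
        ring
    _ = (q : ℝ) ^ (((k : ℝ) + 3) * B + 5 + (N : ℝ) / 2) := by
        rw [← Real.rpow_natCast, ← Real.rpow_add hq0]
        congr 1
        push_cast
        ring
    _ ≤ (q : ℝ) ^ (3 / 4 * (N : ℝ)) := by
        apply Real.rpow_le_rpow_of_exponent_le hq1
        linarith

/-- **Task MAIN.** -/
theorem mainP : S_mainP := by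
  intro K _ _ k A
  refine ⟨1 / (8 * ((k : ℝ) + 3) * ((A : ℝ) + 1)), by positivity, 40, ?_⟩
  intro N j m hN hm hmj α p U hp hU1 hU2
  have hN' : (40 : ℝ) ≤ N := by exact_mod_cast hN
  have hk0 : (0 : ℝ) ≤ k := Nat.cast_nonneg k
  have hA0 : (0 : ℝ) ≤ A := Nat.cast_nonneg A
  have hm0 : (0 : ℝ) ≤ m := Nat.cast_nonneg m
  have hm1 : 8 * ((k : ℝ) + 3) * ((A : ℝ) + 1) * m ≤ N := by
    rw [div_mul_eq_mul_div, one_mul, le_div_iff₀ (by positivity)] at hm
    linarith
  have hAm : ((k : ℝ) + 3) * ((A * m : ℕ) : ℝ) + 5 ≤ (N : ℝ) / 4 := by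
    push_cast
    have : 8 * (((k : ℝ) + 3) * ((A : ℝ) * m)) ≤ N := by
      refine le_trans ?_ hm1
      have h1 : ((k : ℝ) + 3) * ((A : ℝ) * m) ≤ ((k : ℝ) + 3) * (((A : ℝ) + 1) * m) := by
        gcongr
        linarith
      linarith
    linarith
  have hmN : m < N := by
    have h1 : 24 * (m : ℝ) ≤ N := by
      refine le_trans ?_ hm1
      have h2 : (3 : ℝ) * 1 ≤ ((k : ℝ) + 3) * ((A : ℝ) + 1) := by
        apply mul_le_mul <;> linarith
      have h3 := mul_le_mul_of_nonneg_right h2 hm0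
      linarith
    have h4 : (m : ℝ) < N := by
      rcases hm0.eq_or_lt with h | h
      · rw [← h]; linarith
      · linarith
    exact_mod_cast h4
  have hBN : A * m ≤ N := by
    have h1 : ((A * m : ℕ) : ℝ) ≤ N := by
      have h2 : (3 : ℝ) * ((A * m : ℕ) : ℝ) ≤ ((k : ℝ) + 3) * ((A * m : ℕ) : ℝ) := by
        apply mul_le_mul_of_nonneg_right _ (Nat.cast_nonneg _)
        linarith
      have h3 : (0 : ℝ) ≤ ((A * m : ℕ) : ℝ) := Nat.cast_nonneg _
      linarith
    exact_mod_cast h1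
  set q : ℝ := (Fintype.card K : ℝ) with hq
  have hq2 : 2 ≤ Fintype.card K := Fintype.one_lt_card
  set C : Finset K[X] → ℝ := fun T =>
    (((Irn K N).filter (fun g => ∀ P ∈ T, ∃ i, P ∣ p * g + α i)).card : ℝ) with hC
  -- interchange of the sums
  have hsum : ∑ g ∈ Irn K N, th m U α (p * g) = ∑ T ∈ (PU K m).powerset, U T * C T := by
    unfold th
    rw [Finset.sum_comm]
    refine Finset.sum_congr rfl fun T _ => ?_
    rw [← Finset.sum_filter, Finset.sum_const, nsmul_eq_mul, mul_comm]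
  rw [hsum, Finset.mul_sum, ← Finset.sum_sub_distrib]
  have hE : ∀ T ∈ (PU K m).powerset, |U T * C T - q ^ N / N * (U T * ∏ P ∈ T, wd α P)| ≤
      if ∑ P ∈ T, P.natDegree ≤ A * m then
        ((k : ℝ) + 1) ^ (A * m) * ((2 * ((A * m : ℕ) : ℝ) + 4) * (√q) ^ N) else 0 := by
    intro T hT
    by_cases h0 : U T = 0
    · rw [h0]
      simp only [zero_mul, mul_zero, sub_zero, abs_zero]
      split_ifs
      · positivity
      · exact le_rfl
    · obtain ⟨hTP, hdeg⟩ := hU2 T h0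
      rw [if_pos hdeg]
      have h1 := count_T (N := N) α hp hmj hmN (T := T)
        (fun P hP => by
          have := mem_PU.1 (hTP hP)
          exact ⟨this.1, this.2.1, this.2.2⟩) (hdeg.trans hBN)
      have hNpos : (0 : ℝ) < N := by linarith
      have h2 : U T * C T - q ^ N / N * (U T * ∏ P ∈ T, wd α P) =
          U T * (((N : ℝ) * C T - q ^ N * ∏ P ∈ T, wd α P) / N) := by
        field_simp
      rw [h2, abs_mul, abs_div, abs_of_pos hNpos]
      have hom : (∏ P ∈ T, (om α P : ℝ)) ≤ ((k : ℝ) + 1) ^ (A * m) := by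
        calc (∏ P ∈ T, (om α P : ℝ)) ≤ ∏ P ∈ T, ((k : ℝ) + 1) := by
              refine Finset.prod_le_prod (fun P _ => Nat.cast_nonneg _) fun P _ => ?_
              have : (om α P : ℝ) ≤ k := by exact_mod_cast om_le α P
              linarith
          _ = ((k : ℝ) + 1) ^ T.card := by rw [Finset.prod_const]
          _ ≤ ((k : ℝ) + 1) ^ (A * m) := by
              apply pow_le_pow_right₀ (by linarith)
              refine le_trans ?_ hdeg
              rw [Finset.card_eq_sum_ones]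
              exact Finset.sum_le_sum fun P hP => (mem_PU.1 (hTP hP)).2.1.natDegree_pos
      have hdegR : (((∑ P ∈ T, P.natDegree : ℕ)) : ℝ) ≤ ((A * m : ℕ) : ℝ) := by
        exact_mod_cast hdeg
      have h3 : |(N : ℝ) * C T - q ^ N * ∏ P ∈ T, wd α P| ≤
          ((k : ℝ) + 1) ^ (A * m) * ((2 * ((A * m : ℕ) : ℝ) + 4) * (√q) ^ N) := by
        refine h1.trans ?_
        have h4 : (2 * (∑ P ∈ T, P.natDegree : ℕ) + 4 : ℝ) ≤ 2 * ((A * m : ℕ) : ℝ) + 4 := by
          linarith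
        have h5 : (0 : ℝ) ≤ (2 * (∑ P ∈ T, P.natDegree : ℕ) + 4 : ℝ) := by positivity
        have h6 : (0 : ℝ) ≤ (√q) ^ N := by positivity
        apply mul_le_mul hom (mul_le_mul_of_nonneg_right h4 h6) (mul_nonneg h5 h6) (by positivity)
      calc |U T| * (|(N : ℝ) * C T - q ^ N * ∏ P ∈ T, wd α P| / N)
          ≤ 1 * (|(N : ℝ) * C T - q ^ N * ∏ P ∈ T, wd α P| / 1) := by
            apply mul_le_mul (hU1 T) _ (by positivity) zero_le_one
            apply div_le_div_of_nonneg_left (abs_nonneg _) one_pos (by linarith)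
        _ ≤ _ := by rw [one_mul, div_one]; exact h3
  refine (Finset.abs_sum_le_sum_abs _ _).trans ((Finset.sum_le_sum hE).trans ?_)
  rw [← Finset.sum_filter, Finset.sum_const, nsmul_eq_mul]
  refine le_trans ?_ (numer (Fintype.card K) hq2 k (A * m) N hAm)
  apply mul_le_mul_of_nonneg_right _ (by positivity)
  exact_mod_cast card_supp m (A * m)

end Pool.Agent.H161.E2
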